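import Pool.Agent.Helper36.RN.Goals

/-! # Energy estimate of the mixed system on `Sⁿ` (after Helper14/RS/QF3) -/

namespace Pool.Agent.Helper54.RN

open Set Filter Topology MeasureTheory Pool.Agent.Helper47.RFn Pool.Agent.Helper36.EV
  Pool.Agent.Helper36.RN
open scoped ContDiff

theorem yo {x C a b ε : ℝ} (hC : 0 ≤ C) (ha : 0 ≤ a) (hb : 0 ≤ b) (hε : 0 < ε)
    (h : x ^ 2 ≤ C * (a * b)) : x ≤ ε * a + C / (4 * ε) * b := by
  have h1 : 0 ≤ ε * a + C / (4 * ε) * b := by positivity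
  have h2 : x ^ 2 ≤ (ε * a + C / (4 * ε) * b) ^ 2 := by
    have h3 : (ε * a + C / (4 * ε) * b) ^ 2 =
        (ε * a - C / (4 * ε) * b) ^ 2 + C * (a * b) := by
      field_simp
      ring
    rw [h3]
    nlinarith [sq_nonneg (ε * a - C / (4 * ε) * b)]
  exact (le_abs_self x).trans (abs_le_of_sq_le_sq h2 h1)

theorem unif {ι : Type*} [Fintype ι] (C : ι → ℝ) : ∃ K, 0 ≤ K ∧ ∀ i, C i ≤ K :=
  ⟨∑ i, |C i|, Finset.sum_nonneg fun _ _ => abs_nonneg _, fun i =>
    (le_abs_self _).trans (Finset.single_le_sum (f := fun j => |C j|)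
      (fun _ _ => abs_nonneg _) (Finset.mem_univ i))⟩

variable {n : ℕ} {I J : Type} [Fintype I] [Fintype J]

theorem sum_sn_nonneg {ι : Type} [Fintype ι] (k : ℕ) (u : ι → XS n) : 0 ≤ ∑ i, sn k (u i) :=
  Finset.sum_nonneg fun _ _ => sn_nonneg _ _

theorem le_sum_sn {ι : Type} [Fintype ι] (k : ℕ) (u : ι → XS n) (i : ι) :
    sn k (u i) ≤ ∑ i, sn k (u i) :=
  Finset.single_le_sum (f := fun i => sn k (u i)) (fun _ _ => sn_nonneg _ _) (Finset.mem_univ i)

/-- the quantity on the right sides -/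
noncomputable def QQ (m : ℕ) (u : I → XS n) (v : J → XS n) : ℝ :=
  1 + ∑ i, sn m (u i) + ∑ j, sn m (v j)

/-- the number of rotation fields -/
noncomputable def NN (n : ℕ) : ℝ := Fintype.card (KK n)

theorem NN_nonneg (n : ℕ) : 0 ≤ NN n := Nat.cast_nonneg _

theorem QQ_pos (m : ℕ) (u : I → XS n) (v : J → XS n) : 1 ≤ QQ m u v := by
  have h1 := sum_sn_nonneg m u
  have h2 := sum_sn_nonneg m v
  unfold QQ
  linarith

theorem u_le_QQ (m : ℕ) (u : I → XS n) (v : J → XS n) (i : I) : sn m (u i) ≤ QQ m u v := by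
  have h1 := le_sum_sn m u i
  have h2 := sum_sn_nonneg m v
  unfold QQ
  linarith

theorem QQ_mono {k m : ℕ} (h : k ≤ m) (u : I → XS n) (v : J → XS n) : QQ k u v ≤ QQ m u v := by
  have a1 : ∑ i, sn k (u i) ≤ ∑ i, sn m (u i) :=
    Finset.sum_le_sum fun i _ => sn_mono h _
  have a2 : ∑ j, sn k (v j) ≤ ∑ j, sn m (v j) :=
    Finset.sum_le_sum fun i _ => sn_mono h _
  unfold QQ
  linarith

theorem sum_Ld_le {ι : Type} [Fintype ι] (k : ℕ) (v : ι → XS n) :
    ∑ p : KK n × ι, sn k (Ld p.1 (v p.2)) ≤ NN n * ∑ j, sn (k + 1) (v j) := by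
  rw [Fintype.sum_prod_type]
  have h3 : ∀ p : KK n, ∑ i, sn k (Ld p (v i)) ≤ ∑ i, sn (k + 1) (v i) := fun p =>
    Finset.sum_le_sum fun i _ => sn_Ld k p (v i)
  calc ∑ p : KK n, ∑ i, sn k (Ld p (v i)) ≤ ∑ p : KK n, ∑ i, sn (k + 1) (v i) :=
        Finset.sum_le_sum fun p _ => h3 p
    _ = NN n * ∑ i, sn (k + 1) (v i) := by
      rw [Finset.sum_const, Finset.card_univ, nsmul_eq_mul]
      rfl

theorem sum_zj (k : ℕ) (u : I → XS n) (v : J → XS n) :
    1 + ∑ q, sn k (zj u v q) = QQ k u v + ∑ p : KK n × J, sn k (Ld p.1 (v p.2)) := by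
  unfold zj QQ
  rw [Fintype.sum_sum_type, Fintype.sum_sum_type]
  simp only [Sum.elim_inl, Sum.elim_inr]
  ring

theorem sum_zj' (k : ℕ) (u : I → XS n) (v : J → XS n) :
    1 + ∑ q, sn k (zj' u v q) = QQ k u v + ∑ p : KK n × J, sn k (Ld p.1 (v p.2)) +
      ∑ p : KK n × I, sn k (Ld p.1 (u p.2)) := by
  rw [← sum_zj]
  unfold zj'
  rw [Fintype.sum_sum_type]
  simp only [Sum.elim_inl, Sum.elim_inr]
  ring

/-- a polynomial in a jet -/
theorem mvp_unif (hM : R_MVP) {Z Q : Type} [Fintype Z] [Fintype Q] (p : Q → MvPolynomial Z ℝ)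
    (k : ℕ) (hk : 2 * n + 6 ≤ k) (L : ℝ) : ∃ K, 0 ≤ K ∧ ∀ q, ∀ z : Z → XS n,
      (∀ i, sn (k - 2) (z i) ≤ L) →
      sn k (MvPolynomial.aeval z (p q)) ≤ K * (1 + ∑ i, sn k (z i)) := by
  have h0 : ∀ q, ∃ C, ∀ z : Z → XS n, (∀ i, sn (k - 2) (z i) ≤ L) →
      sn k (MvPolynomial.aeval z (p q)) ≤ C * (1 + ∑ i, sn k (z i)) :=
    fun q => (hM n Z (p q)).1 k hk L
  choose C0 hC0 using h0
  obtain ⟨K, hK0, hK⟩ := unif C0
  refine ⟨K, hK0, fun q z hz => (hC0 q z hz).trans ?_⟩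
  have := sum_sn_nonneg k z
  exact mul_le_mul_of_nonneg_right (hK q) (by linarith)

theorem part_u (hM : R_MVP) (D : QLD n I J) (m : ℕ) (hm : 2 * n + 7 ≤ m) (L : ℝ)
    (ε : ℝ) (hε : 0 < ε) : ∃ C, 0 ≤ C ∧ ∀ (u : I → XS n) (v : J → XS n),
      (∀ i, sn (m - 1) (u i) ≤ L) → (∀ j, sn (m - 1) (v j) ≤ L) → ∀ i,
      bf m (u i) (D.FI u v i) ≤ ε * ∑ j, sn (m + 1) (v j) + C * QQ m u v := by
  obtain ⟨K, hK0, hK⟩ := mvp_unif (n := n) hM D.G m (by omega) L
  have hN := NN_nonneg n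
  set e := ε / (K * NN n + 1) with he
  have hKN : 0 ≤ K * NN n := mul_nonneg hK0 hN
  have hepos : 0 < e := by positivity
  have heK : e * (K * NN n) ≤ ε := by
    rw [he, div_mul_eq_mul_div, div_le_iff₀ (by positivity)]
    nlinarith
  refine ⟨e * K + 1 / (4 * e), by positivity, fun u v hu hv i => ?_⟩
  set S := ∑ j, sn (m + 1) (v j) with hSd
  have hS0 : 0 ≤ S := sum_sn_nonneg _ _
  have hQ := QQ_pos m u v
  have hmm : m - 2 + 1 = m - 1 := by omega
  have h1 : sn m (D.FI u v i) ≤ K * (QQ m u v + NN n * S) := by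
    have h2 := hK i (zj u v) (by
      rintro ((i | j) | p)
      · exact (sn_mono (by omega) _).trans (hu i)
      · exact (sn_mono (by omega) _).trans (hv j)
      · have := sn_Ld (m - 2) p.1 (v p.2)
        rw [hmm] at this
        exact this.trans (hv p.2))
    refine h2.trans (mul_le_mul_of_nonneg_left ?_ hK0)
    rw [sum_zj]
    have := sum_Ld_le m v
    linarith
  have h2 := cs_bf m (u i) (D.FI u v i)
  have h3 : bf m (u i) (D.FI u v i) ≤ e * sn m (D.FI u v i) + 1 / (4 * e) * sn m (u i) := by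
    refine yo zero_le_one (sn_nonneg _ _) (sn_nonneg _ _) hepos ?_
    linarith
  have h4 : e * sn m (D.FI u v i) ≤ e * (K * (QQ m u v + NN n * S)) :=
    mul_le_mul_of_nonneg_left h1 hepos.le
  have h5 : 1 / (4 * e) * sn m (u i) ≤ 1 / (4 * e) * QQ m u v :=
    mul_le_mul_of_nonneg_left (u_le_QQ m u v i) (by positivity)
  have h6 : e * (K * NN n) * S ≤ ε * S := mul_le_mul_of_nonneg_right heK hS0
  calc bf m (u i) (D.FI u v i) ≤ e * (K * (QQ m u v + NN n * S)) + 1 / (4 * e) * QQ m u v := by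
        linarith
    _ = e * (K * NN n) * S + (e * K + 1 / (4 * e)) * QQ m u v := by ring
    _ ≤ _ := by linarith

theorem part_b (hP : G_PRSB) (hM : R_MVP) (D : QLD n I J) (m : ℕ) (hm : 2 * n + 7 ≤ m) (L : ℝ)
    (ε : ℝ) (hε : 0 < ε) : ∃ C, 0 ≤ C ∧ ∀ (u : I → XS n) (v : J → XS n),
      (∀ i, sn (m - 1) (u i) ≤ L) → (∀ j, sn (m - 1) (v j) ≤ L) → ∀ p j,
      bf m (v j) (Ld p (MvPolynomial.aeval (Sum.elim u v) (D.β p j))) ≤
        ε * sn (m + 1) (v j) + C * QQ m u v := by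
  obtain ⟨K, hK0, hK⟩ := mvp_unif (n := n) hM (fun q : KK n × J => D.β q.1 q.2) m (by omega) L
  obtain ⟨F, hF⟩ := (hP n).2.1 m
  refine ⟨|F| / (4 * ε) * K, by positivity, fun u v hu hv p j => ?_⟩
  have hQ := QQ_pos m u v
  have h1 : sn m (MvPolynomial.aeval (Sum.elim u v) (D.β p j)) ≤ K * QQ m u v := by
    have h2 := hK (p, j) (Sum.elim u v) (by
      rintro (i | j)
      · exact (sn_mono (by omega) _).trans (hu i)
      · exact (sn_mono (by omega) _).trans (hv j))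
    refine h2.trans (mul_le_mul_of_nonneg_left (le_of_eq ?_) hK0)
    rw [Fintype.sum_sum_type]
    simp only [Sum.elim_inl, Sum.elim_inr]
    unfold QQ
    ring
  have h2 := hF p (v j) (MvPolynomial.aeval (Sum.elim u v) (D.β p j))
  have h3 : bf m (v j) (Ld p (MvPolynomial.aeval (Sum.elim u v) (D.β p j))) ≤
      ε * sn (m + 1) (v j) +
      |F| / (4 * ε) * sn m (MvPolynomial.aeval (Sum.elim u v) (D.β p j)) := by
    refine yo (abs_nonneg F) (sn_nonneg _ _) (sn_nonneg _ _) hε (h2.trans ?_)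
    exact mul_le_mul_of_nonneg_right (le_abs_self F) (mul_nonneg (sn_nonneg _ _) (sn_nonneg _ _))
  have h4 : |F| / (4 * ε) * sn m (MvPolynomial.aeval (Sum.elim u v) (D.β p j)) ≤
      |F| / (4 * ε) * (K * QQ m u v) := mul_le_mul_of_nonneg_left h1 (by positivity)
  calc _ ≤ _ := h3
    _ ≤ ε * sn (m + 1) (v j) + |F| / (4 * ε) * (K * QQ m u v) := by linarith
    _ = _ := by ring

theorem part_w (hP : G_PRSB) (hM : R_MVP) (D : QLD n I J) (m : ℕ) (hm : 2 * n + 7 ≤ m) (L : ℝ)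
    (ε : ℝ) (hε : 0 < ε) : ∃ C, 0 ≤ C ∧ ∀ (u : I → XS n) (v : J → XS n),
      (∀ i, sn (m - 1) (u i) ≤ L) → (∀ j, sn (m - 1) (v j) ≤ L) → ∀ j,
      bf m (v j) (MvPolynomial.aeval (zj' u v) (D.W j)) ≤
        ε * sn (m + 1) (v j) + C * QQ m u v := by
  obtain ⟨K, hK0, hK⟩ := mvp_unif (n := n) hM D.W (m - 1) (by omega) L
  obtain ⟨F, hF⟩ := (hP n).2.2 m (by omega)
  have hN := NN_nonneg n
  refine ⟨|F| / (4 * ε) * (K * (1 + 2 * NN n)), by positivity, fun u v hu hv j => ?_⟩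
  have hQ := QQ_pos m u v
  have hmm : m - 1 + 1 = m := by omega
  have hmm2 : m - 1 - 2 + 1 ≤ m - 1 := by omega
  have h1 : sn (m - 1) (MvPolynomial.aeval (zj' u v) (D.W j)) ≤
      K * ((1 + 2 * NN n) * QQ m u v) := by
    have h2 := hK j (zj' u v) (by
      rintro (((i | j) | p) | p)
      · exact (sn_mono (by omega) _).trans (hu i)
      · exact (sn_mono (by omega) _).trans (hv j)
      · exact (sn_Ld _ _ _).trans ((sn_mono hmm2 _).trans (hv p.2))
      · exact (sn_Ld _ _ _).trans ((sn_mono hmm2 _).trans (hu p.2)))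
    refine h2.trans (mul_le_mul_of_nonneg_left ?_ hK0)
    rw [sum_zj']
    have a1 := sum_Ld_le (m - 1) v
    have a2 := sum_Ld_le (m - 1) u
    rw [hmm] at a1 a2
    have a3 := QQ_mono (show m - 1 ≤ m by omega) u v
    have b1 : ∑ j, sn m (v j) ≤ QQ m u v := by
      have := sum_sn_nonneg m u
      unfold QQ
      linarith
    have b2 : ∑ i, sn m (u i) ≤ QQ m u v := by
      have := sum_sn_nonneg m v
      unfold QQ
      linarith
    have b3 := mul_le_mul_of_nonneg_left b1 hN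
    have b4 := mul_le_mul_of_nonneg_left b2 hN
    linarith
  have h2 := hF (v j) (MvPolynomial.aeval (zj' u v) (D.W j))
  have h3 : bf m (v j) (MvPolynomial.aeval (zj' u v) (D.W j)) ≤ ε * sn (m + 1) (v j) +
      |F| / (4 * ε) * sn (m - 1) (MvPolynomial.aeval (zj' u v) (D.W j)) := by
    refine yo (abs_nonneg F) (sn_nonneg _ _) (sn_nonneg _ _) hε (h2.trans ?_)
    exact mul_le_mul_of_nonneg_right (le_abs_self F) (mul_nonneg (sn_nonneg _ _) (sn_nonneg _ _))
  have h4 : |F| / (4 * ε) * sn (m - 1) (MvPolynomial.aeval (zj' u v) (D.W j)) ≤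
      |F| / (4 * ε) * (K * ((1 + 2 * NN n) * QQ m u v)) :=
    mul_le_mul_of_nonneg_left h1 (by positivity)
  calc _ ≤ _ := h3
    _ ≤ ε * sn (m + 1) (v j) + |F| / (4 * ε) * (K * ((1 + 2 * NN n) * QQ m u v)) := by linarith
    _ = _ := by ring

theorem part_m (hE : R_ELL) (hM : R_MVP) (D : QLD n I J) (u0 : I → XS n)
    (lam ρ : ℝ) (hlam : 0 < lam) (hEll : D.Ell u0 lam ρ) (m : ℕ) (hm : 2 * n + 7 ≤ m) (L : ℝ) :
    ∃ C, 0 ≤ C ∧ ∀ (u : I → XS n) (v : J → XS n), (∀ i x, |(u i).1 x - (u0 i).1 x| ≤ ρ) →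
      (∀ i, sn (m - 1) (u i) ≤ L) → (∀ j, sn (m - 1) (v j) ≤ L) → ∀ j,
      bf m (v j) (∑ p, Ld p (∑ q, MvPolynomial.aeval u (D.α p q) * Ld q (v j))) ≤
        - (lam / 2) * sn (m + 1) (v j) + C * QQ m u v := by
  obtain ⟨K, hK0, hK⟩ := mvp_unif (n := n) hM (fun q : KK n × KK n => D.α q.1 q.2) m (by omega) L
  have h0 : ∀ q : KK n × KK n, ∃ C, ∀ z : I → XS n, (∀ i, sn (m - 1) (z i) ≤ L) →
      sn (m - 1) (MvPolynomial.aeval z (D.α q.1 q.2)) ≤ C :=
    fun q => (hM n _ (D.α q.1 q.2)).2.2 (m - 1) (by omega) L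
  choose C0 hC0 using h0
  obtain ⟨K', hK'0, hK'⟩ := unif C0
  obtain ⟨C, hC, h⟩ := hE n m (by omega) lam hlam (max K' L)
  have hN := NN_nonneg n
  refine ⟨C * (1 + NN n * (NN n * K)), by positivity, fun u v hc hu hv j => ?_⟩
  have h1 := h (fun p q => MvPolynomial.aeval u (D.α p q)) (v j)
    (fun p q => ((hC0 (p, q) u hu).trans (hK' (p, q))).trans (le_max_left _ _))
    ((hv j).trans (le_max_right _ _)) (hEll u hc)
  refine h1.trans ?_
  have h2 : ∀ p q, sn m (MvPolynomial.aeval u (D.α p q)) ≤ K * QQ m u v := by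
    intro p q
    refine (hK (p, q) u (fun i => (sn_mono (by omega) _).trans (hu i))).trans
      (mul_le_mul_of_nonneg_left ?_ hK0)
    have := sum_sn_nonneg m v
    unfold QQ
    linarith
  have h3 : ∑ p, ∑ q, sn m (MvPolynomial.aeval u (D.α p q)) ≤ NN n * (NN n * (K * QQ m u v)) := by
    calc ∑ p, ∑ q, sn m (MvPolynomial.aeval u (D.α p q)) ≤
        ∑ _p : KK n, ∑ _q : KK n, K * QQ m u v :=
          Finset.sum_le_sum fun p _ => Finset.sum_le_sum fun q _ => h2 p q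
      _ = NN n * (NN n * (K * QQ m u v)) := by
        rw [Finset.sum_const, Finset.sum_const, Finset.card_univ, nsmul_eq_mul, nsmul_eq_mul]
        rfl
  have h4 : sn m (v j) ≤ QQ m u v := by
    have a1 := le_sum_sn m v j
    have a2 := sum_sn_nonneg m u
    unfold QQ
    linarith
  have h5 : C * (sn m (v j) + ∑ p, ∑ q, sn m (MvPolynomial.aeval u (D.α p q))) ≤
      C * (QQ m u v + NN n * (NN n * (K * QQ m u v))) :=
    mul_le_mul_of_nonneg_left (add_le_add h4 h3) hC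
  have h6 : C * (QQ m u v + NN n * (NN n * (K * QQ m u v))) =
      C * (1 + NN n * (NN n * K)) * QQ m u v := by ring
  rw [h6] at h5
  linarith

theorem qf3 : G_QF3 := by
  intro _ _ hP hE hM n I J _ _ D u0 lam ρ hlam hEll m hm L
  have hN := NN_nonneg n
  obtain ⟨C1, hC1, h1⟩ := part_u hM D m hm L (lam / (8 * (Fintype.card I + 1)))
    (by positivity)
  obtain ⟨C2, hC2, h2⟩ := part_m hE hM D u0 lam ρ hlam hEll m hm L
  obtain ⟨C3, hC3, h3⟩ := part_b hP hM D m hm L (lam / (16 * (NN n + 1))) (by positivity)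
  obtain ⟨C4, hC4, h4⟩ := part_w hP hM D m hm L (lam / 16) (by positivity)
  refine ⟨Fintype.card I * C1 + Fintype.card J * (C2 + NN n * C3 + C4), by positivity,
    fun y hc hq => ?_⟩
  set u : I → XS n := fun i => y (Sum.inl i) with hu
  set v : J → XS n := fun j => y (Sum.inr j) with hv
  have hq' : ∑ i, sn (m - 1) (u i) + ∑ j, sn (m - 1) (v j) ≤ L := by
    have : qq (m - 1) y = ∑ i, sn (m - 1) (u i) + ∑ j, sn (m - 1) (v j) := by
      unfold qq
      rw [Fintype.sum_sum_type]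
    rwa [this] at hq
  have s1 := sum_sn_nonneg (m - 1) u
  have s2 := sum_sn_nonneg (m - 1) v
  have hub : ∀ i, sn (m - 1) (u i) ≤ L := fun i => by
    have := le_sum_sn (m - 1) u i
    linarith
  have hvb : ∀ j, sn (m - 1) (v j) ≤ L := fun j => by
    have := le_sum_sn (m - 1) v j
    linarith
  have hQ : 1 + qq m y = QQ m u v := by
    unfold qq QQ
    rw [Fintype.sum_sum_type, ← add_assoc]
  rw [hQ]
  have hQ1 := QQ_pos m u v
  set Q := QQ m u v with hQd
  set S := ∑ j, sn (m + 1) (v j) with hSd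
  have hS0 : 0 ≤ S := sum_sn_nonneg _ _
  have hbb : bb m y (D.FF y) = ∑ i, bf m (u i) (D.FI u v i) +
      ∑ j, bf m (v j) (D.FJ u v j) := by
    unfold bb QLD.FF
    rw [Fintype.sum_sum_type]
    simp only [Sum.elim_inl, Sum.elim_inr, hu, hv]
  rw [hbb]
  have p1 : ∑ i, bf m (u i) (D.FI u v i) ≤
      Fintype.card I * (lam / (8 * (Fintype.card I + 1)) * S + C1 * Q) := by
    have := Finset.sum_le_sum fun i (_ : i ∈ Finset.univ) => h1 u v hub hvb i
    refine this.trans ?_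
    rw [Finset.sum_const, Finset.card_univ, nsmul_eq_mul]
  have p1' : (Fintype.card I : ℝ) * (lam / (8 * (Fintype.card I + 1)) * S) ≤ lam / 8 * S := by
    have : (Fintype.card I : ℝ) * (lam / (8 * (Fintype.card I + 1))) ≤ lam / 8 := by
      rw [mul_div_assoc', div_le_div_iff₀ (by positivity) (by norm_num)]
      nlinarith
    calc (Fintype.card I : ℝ) * (lam / (8 * (Fintype.card I + 1)) * S) =
          (Fintype.card I : ℝ) * (lam / (8 * (Fintype.card I + 1))) * S := by ring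
      _ ≤ _ := mul_le_mul_of_nonneg_right this hS0
  have p2 : ∀ j, bf m (v j) (D.FJ u v j) ≤ - (lam / 4) * sn (m + 1) (v j) +
      (C2 + NN n * C3 + C4) * Q := by
    intro j
    have e1 : D.FJ u v j = (∑ p, Ld p (∑ q, MvPolynomial.aeval u (D.α p q) * Ld q (v j))) +
        ∑ p, Ld p (MvPolynomial.aeval (Sum.elim u v) (D.β p j)) +
        MvPolynomial.aeval (zj' u v) (D.W j) := by
      unfold QLD.FJ
      rw [← Finset.sum_add_distrib]
      congr 1
      exact Finset.sum_congr rfl fun i _ => map_add _ _ _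
    have a1 := h2 u v hc hub hvb j
    have a2 := Finset.sum_le_sum fun p (_ : p ∈ Finset.univ) => h3 u v hub hvb p j
    have a3 := h4 u v hub hvb j
    have a4 := sn_nonneg (m + 1) (v j)
    have a5 : ∑ _p : KK n, (lam / (16 * (NN n + 1)) * sn (m + 1) (v j) + C3 * QQ m u v) =
        NN n * (lam / (16 * (NN n + 1)) * sn (m + 1) (v j) + C3 * QQ m u v) := by
      rw [Finset.sum_const, Finset.card_univ, nsmul_eq_mul]
      rfl
    rw [a5] at a2
    have a6 : NN n * (lam / (16 * (NN n + 1))) ≤ lam / 16 := by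
      rw [mul_div_assoc', div_le_div_iff₀ (by positivity) (by norm_num)]
      nlinarith
    have a7 := mul_le_mul_of_nonneg_right a6 a4
    have a8 : bf m (v j) (D.FJ u v j) =
        bf m (v j) (∑ p, Ld p (∑ q, MvPolynomial.aeval u (D.α p q) * Ld q (v j))) +
        ∑ p, bf m (v j) (Ld p (MvPolynomial.aeval (Sum.elim u v) (D.β p j))) +
        bf m (v j) (MvPolynomial.aeval (zj' u v) (D.W j)) := by
      rw [e1, map_add, map_add, map_sum (bf m (v j))
        (fun p => Ld p (MvPolynomial.aeval (Sum.elim u v) (D.β p j)))]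
    rw [a8]
    have a9 : NN n * (lam / (16 * (NN n + 1)) * sn (m + 1) (v j) + C3 * QQ m u v) =
        NN n * (lam / (16 * (NN n + 1))) * sn (m + 1) (v j) + NN n * C3 * QQ m u v := by ring
    rw [a9] at a2
    have a10 : 0 ≤ lam * sn (m + 1) (v j) := by positivity
    have a11 : (C2 + NN n * C3 + C4) * Q = C2 * Q + NN n * C3 * Q + C4 * Q := by ring
    rw [a11]
    linarith
  have p3 := Finset.sum_le_sum fun j (_ : j ∈ Finset.univ) => p2 j
  rw [Finset.sum_add_distrib, ← Finset.mul_sum,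
    Finset.sum_const, Finset.card_univ, nsmul_eq_mul] at p3
  have p5 : 0 ≤ lam / 8 * S := by positivity
  have p6 : (Fintype.card I : ℝ) * (lam / (8 * (Fintype.card I + 1)) * S + C1 * Q) =
    (Fintype.card I : ℝ) * (lam / (8 * (Fintype.card I + 1)) * S) + Fintype.card I * C1 * Q := by ring
  rw [p6] at p1
  have p8 : (Fintype.card I * C1 + Fintype.card J * (C2 + NN n * C3 + C4)) * Q =
    Fintype.card I * C1 * Q + Fintype.card J * ((C2 + NN n * C3 + C4) * Q) := by ring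
  rw [p8]
  linarith

end Pool.Agent.Helper54.RN
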